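import Mathlib
import Pool.Agent.Y344.CE2.Gen

/-!
# Factors whose tracial ultrapowers are not C*-elementarily equivalent to them

A stronger form of the starting result `Pair` (there are II₁ factors `N`, `M` which are elementarily
equivalent as tracial von Neumann algebras but not as C*-algebras).

Criterion: let `N` be a II₁ factor such that (Gamma) any two elements commute, up to `ε` in the
2-norm, with a unitary of small trace, and (rigidity) for some pair `a`, `b` the only projections
commuting with `a` and `b` up to some `δ > 0` in the operator norm are `0` and `1`. Then `N` is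
C*-elementarily equivalent to none of its tracial ultrapowers `N^U`, `U` a nonprincipal ultrafilter
on the natural numbers, although it is elementarily equivalent to all of them as a tracial von
Neumann algebra: in `N^U`, and so in its norm ultrapowers, every two elements commute with a
nontrivial projection, while this fails in all norm ultrapowers of `N`. The group factor of the
starting result has both properties, and acts on a separable Hilbert space.
-/

set_option autoImplicit false

open scoped InnerProductSpace

namespace Pool.Agent.Results.MP_755d6b_an.AllUltrapowers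

open Pool.Agent.Helper278 Pool.Agent.Helper278.CE Pool.Agent.Y344.CE2

universe w

section defs

variable {H : Type} [NormedAddCommGroup H] [InnerProductSpace ℂ H] [CompleteSpace H]

/-- Any two elements of `N` commute, up to `ε` in the 2-norm, with a unitary of `N` whose trace has
modulus at most `1 / √2` (a weak form of property Gamma). -/
def GammaPairs (N : VonNeumannAlgebra H) (τ : Elt N → ℂ) : Prop :=
  ∀ (x y : Elt N) (ε : ℝ), 0 < ε → ∃ u : Elt N, star u * u = 1 ∧ u * star u = 1 ∧
    norm2 τ (u * x - x * u) < ε ∧ norm2 τ (u * y - y * u) < ε ∧ ‖τ u‖ ≤ (Real.sqrt 2)⁻¹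

/-- For some `a`, `b` in `N` and `δ > 0` the only projections of `N` which commute with `a` and `b`
up to `δ` in the operator norm are `0` and `1`. -/
def NormRigid (N : VonNeumannAlgebra H) : Prop :=
  ∃ (a b : Elt N) (δ : ℝ), 0 < δ ∧ ∀ q : Elt N, q * q = q → star q = q →
    ‖q * a - a * q‖ ≤ δ → ‖q * b - b * q‖ ≤ δ → q = 0 ∨ q = 1

/-- For every nonprincipal ultrafilter `U` on `ℕ` the tracial ultrapower `N^U` is (isomorphic to) a
II₁ factor `M` which is elementarily equivalent to `N` as a tracial von Neumann algebra, but not as a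
C*-algebra. -/
def UnlikeUltrapowers (N : VonNeumannAlgebra H) (τ : Elt N → ℂ) : Prop :=
  ∀ U : Ultrafilter ℕ, (∀ n, {n} ∉ U) →
    ∃ (K : Type) (_ : NormedAddCommGroup K) (_ : InnerProductSpace ℂ K) (_ : CompleteSpace K)
      (M : VonNeumannAlgebra K) (σ : Elt M → ℂ) (π : (ℕ → Elt N) → Elt M),
      CE.IsTracialUltrapower τ U π σ ∧ IsIIOneFactor M σ ∧ TracialElemEquiv τ σ ∧
        ¬ CStarElemEquiv.{w} (Elt N) (Elt M) ∧ NormUltrapowersExist.{w} (Elt M)

end defs

instance countable_V : Countable V := by
  have h : Countable (ℤ →₀ ZMod 2) := inferInstance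
  exact h

instance countable_F2 : Countable F2 := by
  have h : Function.Surjective (fun L : List (Bool × Bool) => (FreeGroup.mk L : F2)) :=
    fun x => ⟨x.toWord, FreeGroup.mk_toWord⟩
  exact h.countable

instance countable_Gr : Countable Gr := by
  have h : Function.Injective (fun g : Gr => (g.left, g.right)) := by
    intro g k hgk
    have h1 := congrArg Prod.fst hgk
    have h2 := congrArg Prod.snd hgk
    exact SemidirectProduct.ext h1 h2
  exact h.countable

theorem separable_Gr : TopologicalSpace.SeparableSpace (EllTwo Gr) := by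
  have h1 : TopologicalSpace.IsSeparable (Set.range (sb Gr)) :=
    (Set.countable_range _).isSeparable
  have h2 : TopologicalSpace.IsSeparable
      ((Submodule.span ℂ (Set.range (sb Gr)) : Submodule ℂ (EllTwo Gr)) : Set (EllTwo Gr)) :=
    h1.span
  have h3 := h2.closure
  have h4 : closure ((Submodule.span ℂ (Set.range (sb Gr)) : Submodule ℂ (EllTwo Gr)) :
      Set (EllTwo Gr)) = Set.univ := by
    have h5 := (sb Gr).dense_span
    rw [← Submodule.topologicalClosure_coe, h5]
    rfl
  rw [h4] at h3
  exact TopologicalSpace.isSeparable_univ_iff.1 h3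

/-- **Criterion and example.**
(1) A II₁ factor with `GammaPairs` and `NormRigid` is, as a C*-algebra, elementarily equivalent to
none of its tracial ultrapowers along nonprincipal ultrafilters on `ℕ`, although it is elementarily
equivalent to them as a tracial von Neumann algebra.
(2) There is such a factor on a separable Hilbert space.
(3) So there are II₁ factors which are elementarily equivalent as tracial von Neumann algebras but
not as C*-algebras. -/
theorem result :
    (∀ (H : Type) [NormedAddCommGroup H] [InnerProductSpace ℂ H] [CompleteSpace H]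
      (N : VonNeumannAlgebra H) (τ : Elt N → ℂ), IsIIOneFactor N τ → GammaPairs N τ →
      NormRigid N → UnlikeUltrapowers.{w} N τ) ∧
    (∃ (H : Type) (_ : NormedAddCommGroup H) (_ : InnerProductSpace ℂ H) (_ : CompleteSpace H)
      (N : VonNeumannAlgebra H) (τ : Elt N → ℂ), TopologicalSpace.SeparableSpace H ∧
      IsIIOneFactor N τ ∧ GammaPairs N τ ∧ NormRigid N ∧ NormUltrapowersExist.{w} (Elt N) ∧
      UnlikeUltrapowers.{w} N τ) ∧
    (∃ (H K : Type) (_ : NormedAddCommGroup H) (_ : InnerProductSpace ℂ H) (_ : CompleteSpace H)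
      (_ : NormedAddCommGroup K) (_ : InnerProductSpace ℂ K) (_ : CompleteSpace K)
      (N : VonNeumannAlgebra H) (τ : Elt N → ℂ) (M : VonNeumannAlgebra K) (σ : Elt M → ℂ),
      IsIIOneFactor N τ ∧ IsIIOneFactor M σ ∧ TracialElemEquiv τ σ ∧
        ¬ CStarElemEquiv.{w} (Elt N) (Elt M)) := by
  have h1 : ∀ (H : Type) [NormedAddCommGroup H] [InnerProductSpace ℂ H] [CompleteSpace H]
      (N : VonNeumannAlgebra H) (τ : Elt N → ℂ), IsIIOneFactor N τ → GammaPairs N τ →
      NormRigid N → UnlikeUltrapowers.{w} N τ := by
    intro H _ _ _ N τ hII hG hR U hU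
    obtain ⟨a, b, δ, hδ, hab⟩ := hR
    obtain ⟨K, i1, i2, i3, M, σ, π, k1, k2, k3, k4⟩ :=
      criterion.{w} τ hII hG hδ (a := a) (b := b) hab U hU
    exact ⟨K, i1, i2, i3, M, σ, π, k1, k2, k3, k4, normUltrapowersExist _⟩
  have hG : GammaPairs NG (fun x => TG.τ x) := gammaG
  have hR : NormRigid NG := by
    refine ⟨lg xa, lg xb, 1 / 1000, by norm_num, fun q hqq hqs ha hb => ?_⟩
    rcases norm_rigid (q : BG) q.2 (congrArg Subtype.val hqq) (congrArg Subtype.val hqs) ha hb
      with h | h
    · exact Or.inl (Subtype.ext h)
    · exact Or.inr (Subtype.ext h)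
  have h2 : UnlikeUltrapowers.{w} NG (fun x => TG.τ x) := h1 _ NG _ isIIOne hG hR
  refine ⟨fun H _ _ _ N τ => h1 H N τ, ?_, ?_⟩
  · exact ⟨EllTwo Gr, inferInstance, inferInstance, inferInstance, NG, fun x => TG.τ x,
      separable_Gr, isIIOne, hG, hR, normUltrapowersExist _, h2⟩
  · obtain ⟨U, hU⟩ : ∃ U : Ultrafilter ℕ, ∀ n, {n} ∉ U :=
      ⟨Filter.hyperfilter ℕ, fun n => (Set.finite_singleton n).notMem_hyperfilter⟩
    obtain ⟨K, i1, i2, i3, M, σ, π, -, k2, k3, k4, -⟩ := h2 U hU
    exact ⟨EllTwo Gr, K, inferInstance, inferInstance, inferInstance, i1, i2, i3, NG,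
      fun x => TG.τ x, M, σ, isIIOne, k2, k3, k4⟩

end Pool.Agent.Results.MP_755d6b_an.AllUltrapowers
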